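import Pool.Agent.V1151.DA.Main

/-!
# The Mumford-Tate conjecture and the growth of the number of Tate classes on the powers of `A`

The Mumford-Tate conjecture for an abelian variety `A` says that on all powers of `A` the
`ℓ`-adic Tate classes (the classes fixed by open subgroups of the Galois group) are combinations,
with `ℓ`-adic coefficients, of Hodge classes (by the theorem of Faltings, the group generated by the
Galois group is reductive, so it is determined by these classes). By the theorem of Deligne Hodge
classes are Tate classes. Let `t(n)` and `h(n)` be the dimensions of the spaces of Tate classes and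
of combinations of Hodge classes on `A ^ n`. Then

* if the conjecture fails for `A ^ m`, then `t(m + n) - h(m + n) ≥ h(n)` for all `n`;
* the conjecture holds for all powers of `A` if and only if for infinitely many `n`
  `t(n) - h(n) ≤ D β ^ n`, with constants `D` and `β < h(m) ^ (1 / m)` for some `m`;
* in codimension `r > 0` it holds for all powers of `A` if and only if the difference of the
  dimensions in codimension `r` is at most `ε n`, for every `ε > 0` and infinitely many `n`.

Proof: for a class `t` on `A ^ m` and Hodge classes `w_j` on `A ^ n` with dual Hodge classes `w'_j`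
the contraction of `t × w_i` with `w'_j` is `δ_{ij} t`; and the contraction of Hodge classes are
Hodge classes. In codimension `r` the classes `t_i × 1` and `1 × t_j` are independent modulo Hodge
classes, as one sees by the contraction with points.
-/

open CategoryTheory AlgebraicGeometry

universe u v w

namespace Pool.Agent.Results.MP_33b3f9_ag.DefectGrowth

open Pool.Agent.H914 Pool.Agent.H914.VarClass Pool.Agent.H914.VarClass.Obj Pool.Agent.W492.BB
  Pool.Agent.TH133 Pool.Agent.V1151.DA
open Pool.Agent.V1151.DG (pw)

/-- **Tate classes and Hodge classes on the powers of an abelian variety** (for the problem: `𝒱` the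
class of abelian varieties over `k`, `K = ℚ_ℓ`, `H` the `ℓ`-adic cohomology, `T.cls` the Tate
classes, `T.abs` the combinations of Hodge classes, `pw A n = A ^ (n + 1)`). -/
theorem result {k : Type u} [Field k] {𝒱 : VarClass k} {C : TheoryData.{u, v, 0} 𝒱 ℚ}
    [IsChowProj C] {K : Type w} [Field K] {H : WeilTheoryData.{u, v, w} C K} [IsWeilProj H]
    (T : Pair H) (A : 𝒱.Obj) :
    (∀ m n h : ℕ, ¬ Holds T (pw A m) → RankGE T (pw A n) h →
      DefectGE T (pw A (m + n + 1)) h) ∧
    ((∀ n, Holds T (pw A n)) ↔ SlowGrowth T A) ∧
    ∀ r : ℕ, 0 < r → ((∀ n, HoldsIn T r (pw A n)) ↔ SublinearIn T r A) :=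
  ⟨fun _ _ _ h hA => defect_big h hA, main T A, fun _ hr => main_in T A hr⟩

end Pool.Agent.Results.MP_33b3f9_ag.DefectGrowth
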