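import Mathlib
import Pool.Agent.V11219.FinIn2

/-!
# The Mumford-Tate conjecture for abelian varieties with places of different kinds, in particular
# places of potentially good reduction

Let `A` be an abelian variety over a finitely generated field of complex numbers, `W = H_1(A, ℚ)`
with the polarization form `ω₀`, `T` the tangent space at the origin and `per : W → T` the inclusion;
`V = ℚ_ℓ ⊗ W` is the rational Tate module, with the action `ρ` of the Galois group `Γ` and the
cyclotomic character `χ`.  Let `K` be the algebraic closure of `ℚ_ℓ` and `X = K ⊗ V`.  By the theorem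
of Faltings `X` is the sum of strongly irreducible subspaces `E i` (minimal nonzero subspaces stable
under a subgroup of finite index); if `End(A) = ℤ` over the algebraic closure there is one, `E = X`.

Hypotheses.

* `hss`, `hF`: the theorems of Faltings (semisimplicity; the endomorphisms of `V` which commute with
  an open subgroup of the Galois group are combinations of endomorphisms of `A`).
* `hplaces`: each `E i` is a line which is not self-dual, or it has dimension at least two and one of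
  the following holds.

  (a) `E i` has a place of bad semistable reduction as in `AnyToricRank` (`HasBadPlace`) or places of
  good reduction as in `FrobeniusPairsOrRatios` (`HasGoodPlaces`), and (if it is not self-dual) the
  `E j` which are twists of `E i` are isomorphic to it.

  (b) (`HasFinitePlace`) There is an element `γ` of finite order on `X` that maps all `E j` to
  themselves (a generator of the image of the tame inertia group at a place of potentially good
  reduction), such that the set of the eigenvalues of `γ` on `E i` is the union of two nonempty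
  parts, and for `a` in the first and `b` in the second part: `a` or `b` is simple; `b / a` is the
  quotient of no other pair of eigenvalues on `E i`, or `E i` is not isotropic, the parts are
  stable under the duality `a ↦ χ(γ) / a`, and `b / a` is the quotient of no other pair but the
  dual one; geometric progressions of three eigenvalues of `γ` on some `E j` with quotient
  `b / a` exist only if `E j` is not isotropic, and are self-dual with simple outer terms.  If
  `E i` is not self-dual, moreover, the eigenvalues of `γ` on the `E j` not isomorphic to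
  `E i` are not proportional to those on `E i`.

Theorem.  The Mumford-Tate conjecture holds for `A`: all Tate classes in all the tensor powers
`(H^1)^{⊗ 2 m}(m)` are linear combinations of Hodge classes (`CentreTheorem` is the theorem that the
conjecture holds for the centres of the groups; Vasiu, Ullmo-Yafaev).  If there are no Weil families
(families of strongly irreducible subspaces, never dual to each other, such that the product of the
determinants is a power of the cyclotomic character), for instance if no `E i` is isotropic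
(types I, II), it holds, without the theorem on the centres, in the strong form: all Tate classes
are combinations of products of Hodge classes of degree two.

Example 1.  `End(A) = ℤ` over the algebraic closure, `A` is the Jacobian of a curve of genus `g` which
has at ONE place `v` a reduction with just one singular point, of type
`y ^ 2 = x ^ (2 k + 1) + t`, with ANY `k < g`, where `v(t)` is prime to `2 (2 k + 1)` and `v` is prime to
`2 (2 k + 1) ℓ`.  The eigenvalues of `γ` are `1`, with multiplicity `2 g - 2 k`, and the simple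
eigenvalues `- z ^ j`, `0 < j < 2 k + 1`, where `z` is a root of unity of order `2 k + 1`; the first
part is `{1}`.  For `k = 1` this is the theorem `CuspMumfordTate` (symplectic bireflections).

Example 2.  `A` is the Jacobian of `y ^ p = f(x)`, `p` an odd prime, where at ONE place `v`, prime to
`2 p ℓ`, the polynomial `f` has one double root and no other multiple roots, and the discriminant of
`f` has valuation one.  On the `p - 1` eigenspaces `E j` of the automorphism of order `p`, supposed to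
be strongly irreducible of dimension at least three, `γ` is a complex reflection with the eigenvalue
`- z ^ j` and all conditions hold.

Example 3.  Products of abelian varieties `A`, `B` where `A` satisfies (a) and `B` satisfies (b), at
different places.
-/

set_option autoImplicit false

namespace Pool.Agent.Results.MP_33b3f9_ag.PlacesOfDifferentKinds

open Module TensorProduct Pool.Agent.Y126.Notions

noncomputable section

section conditions

variable {K X Γ : Type} [Field K] [AddCommGroup X] [Module K X] [Group Γ]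

/-- The space of the eigenvectors of `γ` in `U` for the eigenvalue `a`. -/
def eigenvectors (R : Representation K Γ X) (γ : Γ) (U : Submodule K X) (a : K) :
    Submodule K X :=
  U ⊓ Module.End.eigenspace (R γ) a

/-- The form `ω` is not zero on `U`. -/
def IsNotIsotropic (ω : X →ₗ[K] X →ₗ[K] K) (U : Submodule K X) : Prop :=
  ∃ u ∈ U, ∃ v ∈ U, ω u v ≠ 0

/-- Geometric progressions `a`, `a q`, `a q ^ 2` of eigenvalues of `γ` on `U` exist only if `ω` is not
zero on `U`; they satisfy `a (a q ^ 2) = χ(γ)`, and `a` is a simple eigenvalue. -/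
def ProgressionsSelfDual (R : Representation K Γ X) (χ : Γ →* K) (ω : X →ₗ[K] X →ₗ[K] K) (γ : Γ)
    (U : Submodule K X) (q : K) : Prop :=
  ∀ a, eigenvectors R γ U a ≠ ⊥ → eigenvectors R γ U (a * q) ≠ ⊥ →
    eigenvectors R γ U (a * q * q) ≠ ⊥ →
    IsNotIsotropic ω U ∧ finrank K (eigenvectors R γ U a) = 1 ∧ a * (a * q * q) = χ γ

/-- The eigenvalues of `γ` on `E i` are divided into two nonempty sets, `A` and its complement, such
that for `a` in `A` and `b` in the complement `a` or `b` is simple, `b / a` is the quotient of no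
other pair of eigenvalues on `E i`, and progressions with quotient `b / a` are self-dual. -/
def SplitsIsolated (R : Representation K Γ X) (χ : Γ →* K) (ω : X →ₗ[K] X →ₗ[K] K) {I : Type}
    (E : I → Submodule K X) (γ : Γ) (i : I) : Prop :=
  ∃ A : Set K, (∃ a ∈ A, eigenvectors R γ (E i) a ≠ ⊥) ∧
    (∃ b ∉ A, eigenvectors R γ (E i) b ≠ ⊥) ∧
    ∀ a ∈ A, ∀ b ∉ A, eigenvectors R γ (E i) a ≠ ⊥ → eigenvectors R γ (E i) b ≠ ⊥ →
      (finrank K (eigenvectors R γ (E i) a) = 1 ∨ finrank K (eigenvectors R γ (E i) b) = 1) ∧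
      (∀ a', eigenvectors R γ (E i) a' ≠ ⊥ → eigenvectors R γ (E i) (a' * (b * a⁻¹)) ≠ ⊥ →
        a' = a) ∧
      ∀ j, ProgressionsSelfDual R χ ω γ (E j) (b * a⁻¹)

/-- `E i` is not isotropic, the eigenvalues of `γ` on `E i` are divided into two nonempty sets, `A` and
its complement, both stable under the duality `a ↦ χ(γ) / a`, such that for `a` in `A` and `b` in the
complement `a` or `b` is simple, `b / a` is the quotient of no other pair of eigenvalues on `E i`
except the dual pair, and progressions with quotient `b / a` are self-dual. -/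
def SplitsIsolatedDual (R : Representation K Γ X) (χ : Γ →* K) (ω : X →ₗ[K] X →ₗ[K] K) {I : Type}
    (E : I → Submodule K X) (γ : Γ) (i : I) : Prop :=
  IsNotIsotropic ω (E i) ∧
  ∃ A : Set K, (∃ a ∈ A, eigenvectors R γ (E i) a ≠ ⊥) ∧
    (∃ b ∉ A, eigenvectors R γ (E i) b ≠ ⊥) ∧
    (∀ a, eigenvectors R γ (E i) a ≠ ⊥ → (a ∈ A ↔ χ γ * a⁻¹ ∈ A)) ∧
    ∀ a ∈ A, ∀ b ∉ A, eigenvectors R γ (E i) a ≠ ⊥ → eigenvectors R γ (E i) b ≠ ⊥ →
      (finrank K (eigenvectors R γ (E i) a) = 1 ∨ finrank K (eigenvectors R γ (E i) b) = 1) ∧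
      (∀ a', eigenvectors R γ (E i) a' ≠ ⊥ → eigenvectors R γ (E i) (a' * (b * a⁻¹)) ≠ ⊥ →
        a' = a ∨ a' * b = χ γ) ∧
      ∀ j, ProgressionsSelfDual R χ ω γ (E j) (b * a⁻¹)

/-- For the `E j` which are not isomorphic to `E i` (over a subgroup of finite index) the eigenvalues
of `γ` on `E j`, with multiplicities, are not the products of those on `E i` with a number `c`. -/
def Separates (R : Representation K Γ X) {I : Type} (E : I → Submodule K X) (γ : Γ) (i : I) :
    Prop :=
  ∀ j, ¬HasTwistedMap R (fun _ => 1) (E i) (E j) → ∀ c : K, c ≠ 0 → ∃ a : K,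
    finrank K (eigenvectors R γ (E i) a) ≠ finrank K (eigenvectors R γ (E j) (c * a))

/-- A diagonalizable element (a Frobenius element) with two eigenvectors in `U` such that the quotient
of the eigenvalues is not a root of unity.  (This is automatic for the Galois representation, if
`U` is strongly irreducible of dimension at least two.) -/
def HasFrobeniusElement (R : Representation K Γ X) (U : Submodule K X) : Prop :=
  ∃ (F : Γ) (b : Basis (Fin (finrank K X)) K X), (∀ k, ∃ a : K, R F (b k) = a • b k) ∧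
    ∃ u ∈ U, ∃ v ∈ U, u ≠ 0 ∧ v ≠ 0 ∧ ∃ s t : K, R F u = s • u ∧ R F v = t • v ∧
      ∀ k : ℕ, 0 < k → s ^ k ≠ t ^ k

/-- The conditions (b) for `E i`. -/
def HasFinitePlace (R : Representation K Γ X) (χ : Γ →* K) (ω : X →ₗ[K] X →ₗ[K] K) {I : Type}
    (E : I → Submodule K X) (i : I) : Prop :=
  HasFrobeniusElement R (E i) ∧
  ∃ γ : Γ, (∃ k : ℕ, 0 < k ∧ R γ ^ k = 1) ∧ (∀ j, ∀ u ∈ E j, R γ u ∈ E j) ∧
    (SplitsIsolated R χ ω E γ i ∨ SplitsIsolatedDual R χ ω E γ i) ∧
    (¬AreDual R χ (E i) (E i) → Separates R E γ i)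

/-- Every `E i` is a line which is not self-dual, or satisfies (a) or (b). -/
def HasPlaces (R : Representation K Γ X) (χ : Γ →* K) (ω : X →ₗ[K] X →ₗ[K] K) {I : Type}
    (E : I → Submodule K X) : Prop :=
  ∀ i, (finrank K (E i) = 1 ∧ ¬AreDual R χ (E i) (E i)) ∨
    (2 ≤ finrank K (E i) ∧
      (Pool.Agent.Y144.MT.HasBadPlace R χ (E i) ∨ Pool.Agent.Y144.MT.HasGoodPlaces R χ (E i)) ∧
      (¬AreDual R χ (E i) (E i) → ∀ (j : I) (ψ : Γ → K), HasTwistedMap R ψ (E i) (E j) →
        HasTwistedMap R (fun _ => 1) (E i) (E j))) ∨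
    HasFinitePlace R χ ω E i

end conditions

open Pool.Agent.H204R3.SP Pool.Agent.H204R3.GP Pool.Agent.W522.U
open Pool.Agent.TH118.MT Pool.Agent.Y144.MT

theorem result (ℓ : ℕ) [Fact ℓ.Prime]
    -- the complex abelian variety `A` with a polarization
    {W T : Type} [AddCommGroup W] [Module ℚ W] [FiniteDimensional ℚ W] [AddCommGroup T] [Module ℂ T]
    (per : W →+ T) (ω₀ : W →ₗ[ℚ] W →ₗ[ℚ] ℚ) (halt : ∀ v, ω₀ v v = 0)
    (hnondeg : ∀ u, (∀ v, ω₀ v u = 0) → u = 0) (hω₀ : IsHodgeBilinear per ω₀)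
    -- the action of the Galois group on the Tate module
    {Γ : Type} [Group Γ] (ρ : Representation ℚ_[ℓ] Γ (ℚ_[ℓ] ⊗[ℚ] W)) (χ : Γ →* ℚ_[ℓ])
    (hω : ∀ s u v, bcb ℚ_[ℓ] ω₀ (ρ s u) (ρ s v) = χ s * bcb ℚ_[ℓ] ω₀ u v)
    -- the theorems of Faltings
    (hss : FiniteIndexSemisimple ρ) (hF : FaltingsEnd per (incl ℚ_[ℓ] W) ρ)
    -- the decomposition and the places
    {I : Type} (E : I → Submodule (AlgebraicClosure ℚ_[ℓ])
      (AlgebraicClosure ℚ_[ℓ] ⊗[ℚ_[ℓ]] (ℚ_[ℓ] ⊗[ℚ] W)))
    (hE : ∀ i, StronglyIrreducible (bcr ρ (AlgebraicClosure ℚ_[ℓ])) (E i))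
    (hsum : ⨆ i, E i = ⊤)
    (hplaces : HasPlaces (bcr ρ (AlgebraicClosure ℚ_[ℓ])) (bcc χ (AlgebraicClosure ℚ_[ℓ]))
      (bcb (AlgebraicClosure ℚ_[ℓ]) (bcb ℚ_[ℓ] ω₀)) E) :
    (CentreTheorem per (Pool.Agent.TH118.MT.extend (k := ℚ_[ℓ]) (AlgebraicClosure ℚ_[ℓ])
        (incl ℚ_[ℓ] W)) (bcr ρ (AlgebraicClosure ℚ_[ℓ])) (bcc χ (AlgebraicClosure ℚ_[ℓ])) →
      MumfordTate per (incl ℚ_[ℓ] W) ρ χ) ∧
    ((∀ (Q : Type) [Fintype Q] [Nonempty Q]
      (L : Q → Submodule (AlgebraicClosure ℚ_[ℓ])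
        (AlgebraicClosure ℚ_[ℓ] ⊗[ℚ_[ℓ]] (ℚ_[ℓ] ⊗[ℚ] W))),
      ¬Pool.Agent.Y126.Notions.IsWeilFamily (bcr ρ (AlgebraicClosure ℚ_[ℓ]))
        (bcc χ (AlgebraicClosure ℚ_[ℓ])) L) →
      MumfordTateStrong per (incl ℚ_[ℓ] W) ρ χ) ∧
    ((∀ i, IsNotIsotropic (bcb (AlgebraicClosure ℚ_[ℓ]) (bcb ℚ_[ℓ] ω₀)) (E i)) →
      MumfordTateStrong per (incl ℚ_[ℓ] W) ρ χ) := by
  classical
  have halt1 := Pool.Agent.TH118.CU.bcb_alt (Ω := ℚ_[ℓ]) ω₀ halt
  have hl1 : ∀ u, (∀ v, bcb ℚ_[ℓ] ω₀ u v = 0) → u = 0 :=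
    fun u hu => bcb_nondeg_left ω₀ hnondeg (left_nondeg ω₀ halt hnondeg) u hu
  have hr1 : ∀ u, (∀ v, bcb ℚ_[ℓ] ω₀ v u = 0) → u = 0 :=
    fun u hu => bcb_nondeg_right ω₀ hnondeg (left_nondeg ω₀ halt hnondeg) u hu
  have halt2 := Pool.Agent.TH118.CU.bcb_alt (Ω := AlgebraicClosure ℚ_[ℓ]) (bcb ℚ_[ℓ] ω₀) halt1
  have hl2 : ∀ u, (∀ v, bcb (AlgebraicClosure ℚ_[ℓ]) (bcb ℚ_[ℓ] ω₀) u v = 0) → u = 0 :=
    fun u hu => bcb_nondeg_left (bcb ℚ_[ℓ] ω₀) hr1 hl1 u hu
  have hinv := bcb_inv (Ω := AlgebraicClosure ℚ_[ℓ]) ρ χ (bcb ℚ_[ℓ] ω₀) hω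
  have hpr : HasProj (bcr ρ (AlgebraicClosure ℚ_[ℓ])) := hasProj_bcr ρ _ hss
  have hSI : Pool.Agent.TH118.IS.SumOfSI (bcr ρ (AlgebraicClosure ℚ_[ℓ])) E := ⟨hE, hsum⟩
  have hpl' : Pool.Agent.V11219.FinIn.MixedPlaces (bcr ρ (AlgebraicClosure ℚ_[ℓ]))
      (bcc χ (AlgebraicClosure ℚ_[ℓ])) (bcb (AlgebraicClosure ℚ_[ℓ]) (bcb ℚ_[ℓ] ω₀)) E := hplaces
  have strong : (∀ (m : ℕ) (φ : MultilinearMap (AlgebraicClosure ℚ_[ℓ])
      (fun _ : Fin m × Fin 2 => AlgebraicClosure ℚ_[ℓ] ⊗[ℚ_[ℓ]] (ℚ_[ℓ] ⊗[ℚ] W))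
      (AlgebraicClosure ℚ_[ℓ])),
      IsTate (bcr ρ (AlgebraicClosure ℚ_[ℓ])) (bcc χ (AlgebraicClosure ℚ_[ℓ])) m φ →
      φ ∈ Submodule.span (AlgebraicClosure ℚ_[ℓ]) (PT (bcr ρ (AlgebraicClosure ℚ_[ℓ]))
        (bcc χ (AlgebraicClosure ℚ_[ℓ])) m)) → MumfordTateStrong per (incl ℚ_[ℓ] W) ρ χ := by
    intro H
    refine mumfordTate_of per (incl ℚ_[ℓ] W) ρ χ (bcb ℚ_[ℓ] ω₀) hl1 hω ω₀ hω₀ (fun x y => ?_) hF
      fun m φ hφ => ?_
    · rw [incl_apply, incl_apply, bcb_one, eq_ratCast]
    · exact tate_descent_any (Ω := AlgebraicClosure ℚ_[ℓ]) (Module.finBasis ℚ_[ℓ] _) ρ χ (H m) φ hφ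
  have core := fun (m : ℕ) (φ : MultilinearMap (AlgebraicClosure ℚ_[ℓ])
      (fun _ : Fin m × Fin 2 => AlgebraicClosure ℚ_[ℓ] ⊗[ℚ_[ℓ]] (ℚ_[ℓ] ⊗[ℚ] W))
      (AlgebraicClosure ℚ_[ℓ])) hφ =>
    Pool.Agent.V11219.FinIn.det_of_mixed (R := bcr ρ (AlgebraicClosure ℚ_[ℓ]))
      (χ := bcc χ (AlgebraicClosure ℚ_[ℓ])) (bcb (AlgebraicClosure ℚ_[ℓ]) (bcb ℚ_[ℓ] ω₀)) halt2 hl2
      hinv hpr hSI hpl' (m := m) φ hφ
  refine ⟨fun hcen => ?_, fun hno => ?_, fun hni => ?_⟩
  · refine mumfordTate_of_ext (AlgebraicClosure ℚ_[ℓ]) ω₀ halt hnondeg hω₀ hω hss hF hcen ?_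
    intro ω _ _ _ _ _ m φ hφ
    exact core m φ hφ
  · exact strong fun m φ hφ => Pool.Agent.Y126.Toric.pt_of_noWeil hno (core m φ hφ)
  · exact strong fun m φ hφ => Pool.Agent.TH118.CU.detProd_pt
      (Pool.Agent.V11219.FinIn.selfDual_of (R := bcr ρ (AlgebraicClosure ℚ_[ℓ]))
        (χ := bcc χ (AlgebraicClosure ℚ_[ℓ])) (bcb (AlgebraicClosure ℚ_[ℓ]) (bcb ℚ_[ℓ] ω₀)) halt2
        hinv hpr hSI hni) φ (core m φ hφ)

end

end Pool.Agent.Results.MP_33b3f9_ag.PlacesOfDifferentKinds
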